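import Pool.Agent.Helper14.SS.Stub

/-!
# Small sets of bounded size: the spectra are the first-order spectra
-/

set_option autoImplicit false

namespace Pool.Agent.Helper14.SS

open FirstOrder FirstOrder.Language Pool.Agent.Helper20.Spectra

open Classical in
/-- the set coded by a flag and a tuple -/
noncomputable def fset32 {M : Type} {c : ℕ} (F : Bool) (u : Fin c → M) : Finset M :=
  if F = true then Finset.univ.image u else ∅

lemma fset_card32 {M : Type} {c : ℕ} (F : Bool) (u : Fin c → M) : (fset32 F u).card ≤ c := by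
  unfold fset32
  split
  · classical
    refine le_trans (le_of_eq ?_) (Finset.card_image_le.trans (le_of_eq (Fintype.card_fin c)) :
      (Finset.univ.image u).card ≤ c)
    congr
  · simp

lemma exists_fset32 {M : Type} [Nonempty M] {c : ℕ} (X : Finset M) (hX : X.card ≤ c) :
    ∃ (F : Bool) (u : Fin c → M), fset32 F u = X := by
  classical
  rcases X.eq_empty_or_nonempty with h | h
  · exact ⟨false, fun _ => Classical.arbitrary M, by simp [fset32, h]⟩
  · obtain ⟨a, ha⟩ := h
    refine ⟨true, fun i => if hi : (i : ℕ) < X.card then (X.equivFin.symm ⟨i, hi⟩ : M) else a, ?_⟩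
    unfold fset32
    rw [if_pos rfl]
    ext x
    simp only [Finset.mem_image, Finset.mem_univ, true_and]
    constructor
    · rintro ⟨i, rfl⟩
      split
      · exact (X.equivFin.symm _).2
      · exact ha
    · intro hx
      have h1 : ((X.equivFin ⟨x, hx⟩ : Fin X.card) : ℕ) < X.card := (X.equivFin ⟨x, hx⟩).2
      refine ⟨⟨(X.equivFin ⟨x, hx⟩ : Fin X.card), lt_of_lt_of_le h1 hX⟩, ?_⟩
      rw [dif_pos h1]
      simp

/-- translation into first-order formulas -/
lemma trans32 {L : FirstOrder.Language.{0, 0}} (c : ℕ) {k m : ℕ} (φ : SFm L k m) :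
    ∀ F : Fin m → Bool, ∃ ψ : L.Formula (Fin k ⊕ (Fin m × Fin c)),
      ∀ (M : Type) [L.Structure M] [Nonempty M] (v : Fin k → M) (u : Fin m → Fin c → M),
        ψ.Realize (Sum.elim v (fun p => u p.1 p.2)) ↔
          φ.Holds c v (fun j => fset32 (F j) (u j)) := by
  induction φ with
  | fo φ =>
    intro F
    refine ⟨φ.relabel Sum.inl, fun M _ _ v u => ?_⟩
    rw [Formula.realize_relabel, Sum.elim_comp_inl]
    rfl
  | mem i j =>
    intro F
    by_cases hF : F j = true
    · refine ⟨Formula.iSup (fun t : Fin c => Term.equal (Term.var (Sum.inl i))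
        (Term.var (Sum.inr (j, t)))), fun M _ _ v u => ?_⟩
      rw [Formula.realize_iSup]
      simp only [Formula.realize_equal, Term.realize_var, Sum.elim_inl, Sum.elim_inr]
      show _ ↔ v i ∈ fset32 (F j) (u j)
      unfold fset32
      rw [if_pos hF]
      simp only [Finset.mem_image, Finset.mem_univ, true_and]
      exact exists_congr (fun t => eq_comm)
    · refine ⟨⊥, fun M _ _ v u => ?_⟩
      show _ ↔ v i ∈ fset32 (F j) (u j)
      unfold fset32
      rw [if_neg hF]
      simp only [Finset.notMem_empty, iff_false]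
      exact Formula.realize_bot.1
  | not φ ih =>
    intro F
    obtain ⟨ψ, hψ⟩ := ih F
    refine ⟨ψ.not, fun M _ _ v u => ?_⟩
    rw [Formula.realize_not, hψ]
    rfl
  | and φ₁ φ₂ ih1 ih2 =>
    intro F
    obtain ⟨ψ1, h1⟩ := ih1 F
    obtain ⟨ψ2, h2⟩ := ih2 F
    refine ⟨ψ1 ⊓ ψ2, fun M _ _ v u => ?_⟩
    rw [Formula.realize_inf, h1, h2]
    rfl
  | @ex k m φ ih =>
    intro F
    obtain ⟨ψ, hψ⟩ := ih F
    let g : Fin (k + 1) ⊕ (Fin m × Fin c) → (Fin k ⊕ (Fin m × Fin c)) ⊕ Unit :=
      Sum.elim (Fin.cases (Sum.inr ()) (fun i => Sum.inl (Sum.inl i))) (fun p => Sum.inl (Sum.inr p))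
    refine ⟨(ψ.relabel g).iExs Unit, fun M _ _ v u => ?_⟩
    rw [Formula.realize_iExs]
    show _ ↔ ∃ x : M, φ.Holds c (Fin.cons x v) (fun j => fset32 (F j) (u j))
    constructor
    · rintro ⟨y, hy⟩
      refine ⟨y (), ?_⟩
      rw [← hψ]
      rw [Formula.realize_relabel] at hy
      convert hy using 1
      funext a
      rcases a with a | a
      · refine Fin.cases ?_ (fun i => ?_) a
        · rfl
        · rfl
      · rfl
    · rintro ⟨x, hx⟩
      refine ⟨fun _ => x, ?_⟩
      rw [← hψ] at hx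
      rw [Formula.realize_relabel]
      convert hx using 1
      funext a
      rcases a with a | a
      · refine Fin.cases ?_ (fun i => ?_) a
        · rfl
        · rfl
      · rfl
  | @exSet k m φ ih =>
    intro F
    have key : ∀ G : Bool, ∃ ψ : L.Formula (Fin k ⊕ (Fin m × Fin c)),
        ∀ (M : Type) [L.Structure M] [Nonempty M] (v : Fin k → M) (u : Fin m → Fin c → M),
        ψ.Realize (Sum.elim v (fun p => u p.1 p.2)) ↔
          ∃ u0 : Fin c → M, φ.Holds c v (Fin.cons (fset32 G u0) (fun j => fset32 (F j) (u j))) := by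
      intro G
      obtain ⟨ψ, hψ⟩ := ih (Fin.cons G F)
      let g : Fin k ⊕ (Fin (m + 1) × Fin c) → (Fin k ⊕ (Fin m × Fin c)) ⊕ Fin c :=
        Sum.elim (fun i => Sum.inl (Sum.inl i))
          (fun p => (Fin.cases (motive := fun _ => (Fin k ⊕ (Fin m × Fin c)) ⊕ Fin c) (Sum.inr p.2)
            (fun j => Sum.inl (Sum.inr (j, p.2))) p.1))
      have hset : ∀ (M : Type) (u : Fin m → Fin c → M) (u0 : Fin c → M),
          (fun j => fset32 ((Fin.cons G F : Fin (m + 1) → Bool) j)
            ((Fin.cons u0 u : Fin (m + 1) → Fin c → M) j)) =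
          (Fin.cons (fset32 G u0) (fun j => fset32 (F j) (u j)) : Fin (m + 1) → Finset M) := by
        intro M u u0
        funext j
        refine Fin.cases ?_ (fun j => ?_) j
        · rfl
        · rfl
      have hval : ∀ (M : Type) (v : Fin k → M) (u : Fin m → Fin c → M) (u0 : Fin c → M),
          (Sum.elim (Sum.elim v (fun p => u p.1 p.2)) u0 :
            (Fin k ⊕ (Fin m × Fin c)) ⊕ Fin c → M) ∘ g =
          Sum.elim v (fun p => (Fin.cons u0 u : Fin (m + 1) → Fin c → M) p.1 p.2) := by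
        intro M v u u0
        funext a
        rcases a with a | ⟨j, t⟩
        · rfl
        · refine Fin.cases ?_ (fun j => ?_) j
          · rfl
          · rfl
      refine ⟨(ψ.relabel g).iExs (Fin c), fun M _ _ v u => ?_⟩
      rw [Formula.realize_iExs]
      refine exists_congr (fun u0 => ?_)
      rw [Formula.realize_relabel]
      have h1 := hψ M v (Fin.cons u0 u : Fin (m + 1) → Fin c → M)
      rw [hset] at h1
      rw [← h1, ← hval M v u u0]
    obtain ⟨ψ0, h0⟩ := key false
    obtain ⟨ψ1, h1⟩ := key true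
    refine ⟨ψ0 ⊔ ψ1, fun M _ _ v u => ?_⟩
    rw [Formula.realize_sup, h0, h1]
    show _ ↔ ∃ X : Finset M, X.card ≤ c ∧ φ.Holds c v (Fin.cons X (fun j => fset32 (F j) (u j)))
    constructor
    · rintro (⟨u0, h⟩ | ⟨u0, h⟩)
      · exact ⟨_, fset_card32 _ _, h⟩
      · exact ⟨_, fset_card32 _ _, h⟩
    · rintro ⟨X, hX, h⟩
      obtain ⟨G, u0, rfl⟩ := exists_fset32 X hX
      cases G
      · exact Or.inl ⟨u0, h⟩
      · exact Or.inr ⟨u0, h⟩

/-- sentences about the size -/
lemma exists_size32 (L : FirstOrder.Language.{0, 0}) (T : Finset ℕ) : ∃ χ : L.Sentence,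
    ∀ (M : Type) [L.Structure M] [Fintype M], χ.Realize M ↔ Fintype.card M ∈ T := by
  classical
  induction T using Finset.induction_on with
  | empty =>
    refine ⟨⊥, fun M _ _ => ?_⟩
    simp only [Finset.notMem_empty, iff_false]
    exact Formula.realize_bot.1
  | insert a T _ ih =>
    obtain ⟨χ, hχ⟩ := ih
    refine ⟨(Sentence.cardGe L a ⊓ (Sentence.cardGe L (a + 1)).not) ⊔ χ, fun M _ _ => ?_⟩
    have h1 : ((Sentence.cardGe L a ⊓ (Sentence.cardGe L (a + 1)).not) ⊔ χ).Realize M ↔
        ((Sentence.cardGe L a).Realize M ∧ ¬ (Sentence.cardGe L (a + 1)).Realize M) ∨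
          χ.Realize M := by
      unfold Sentence.Realize
      rw [Formula.realize_sup, Formula.realize_inf, Formula.realize_not]
    rw [h1, hχ]
    have h2 : ∀ j : ℕ, (Sentence.cardGe L j).Realize M ↔ j ≤ Fintype.card M := by
      intro j
      have := Sentence.realize_cardGe (L := L) (M := M) j
      rw [Cardinal.mk_fintype] at this
      exact this.trans Nat.cast_le
    rw [h2, h2, Finset.mem_insert]
    constructor
    · rintro (⟨h3, h4⟩ | h3)
      · left; omega
      · right; exact h3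
    · rintro (h3 | h3)
      · left; omega
      · right; exact h3

/-- T3 -/
theorem bdd : StmtBdd := by
  classical
  rintro s hs b hb A ⟨L, hF, hR, φ, rfl⟩
  -- `s` is eventually constant
  obtain ⟨c, N, hN⟩ : ∃ c N, ∀ n, N ≤ n → s n = c := by
    let P : ℕ → Prop := fun t => ∃ n, s n = t
    have hPb : ∀ t, P t → t ≤ b := by
      rintro t ⟨n, rfl⟩
      exact hb n
    obtain ⟨t, ⟨N, hN⟩, hmax⟩ : ∃ t, P t ∧ ∀ t', P t' → t' ≤ t := by
      have hP0 : P (s 0) := ⟨0, rfl⟩
      refine ⟨Nat.findGreatest P b, Nat.findGreatest_spec (hPb _ hP0) hP0, fun t' ht' => ?_⟩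
      exact Nat.le_findGreatest (hPb t' ht') ht'
    refine ⟨t, N, fun n hn => le_antisymm (hmax _ ⟨n, rfl⟩) ?_⟩
    rw [← hN]
    exact hs hn
  obtain ⟨ψ, hψ⟩ := trans32 c φ Fin.elim0
  let ψ' : L.Sentence := ψ.relabel (Sum.elim (fun i : Fin 0 => i.elim0) (fun p => p.1.elim0))
  have hψ' : ∀ (M : Type) [L.Structure M] [Nonempty M],
      ψ'.Realize M ↔ φ.Holds (M := M) c Fin.elim0 Fin.elim0 := by
    intro M _ _
    show Formula.Realize (ψ.relabel _) _ ↔ _
    rw [Formula.realize_relabel]
    have h1 := hψ M Fin.elim0 Fin.elim0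
    have e1 : (fun j : Fin 0 => fset32 ((Fin.elim0 : Fin 0 → Bool) j)
        ((Fin.elim0 : Fin 0 → Fin c → M) j)) = Fin.elim0 := by
      funext j
      exact j.elim0
    rw [e1] at h1
    rw [← h1]
    refine Iff.of_eq (congrArg _ ?_)
    funext a
    rcases a with a | a
    · exact a.elim0
    · exact a.1.elim0
  let A : Set ℕ := {n : ℕ | 1 ≤ n ∧ ∃ (M : Type) (_ : L.Structure M) (_ : Fintype M),
      Fintype.card M = n ∧ φ.Holds (M := M) (s n) Fin.elim0 Fin.elim0}
  obtain ⟨χ, hχ⟩ := exists_size32 L ((Finset.range N).filter (fun n => n ∈ A))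
  obtain ⟨χ', hχ'⟩ := exists_size32 L (Finset.range N)
  refine ⟨L, hF, hR, χ ⊔ (ψ' ⊓ χ'.not), ?_⟩
  have hreal : ∀ (M : Type) [L.Structure M] [Fintype M], (χ ⊔ (ψ' ⊓ χ'.not)).Realize M ↔
      (χ.Realize M ∨ (ψ'.Realize M ∧ ¬ χ'.Realize M)) := by
    intro M _ _
    unfold Sentence.Realize
    rw [Formula.realize_sup, Formula.realize_inf, Formula.realize_not]
  show A = _
  ext n
  constructor
  · rintro ⟨hn, M, hM, hf, hc, hφ⟩
    refine ⟨hn, M, hM, hf, hc, ?_⟩
    rw [hreal, hχ, hχ', hc, Finset.mem_filter, Finset.mem_range]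
    by_cases hnN : n < N
    · left
      exact ⟨hnN, hn, M, hM, hf, hc, hφ⟩
    · right
      have hne : Nonempty M := Fintype.card_pos_iff.1 (by omega)
      refine ⟨?_, hnN⟩
      rw [hψ', ← hN n (by omega)]
      exact hφ
  · rintro ⟨hn, M, hM, hf, hc, hr⟩
    rw [hreal, hχ, hχ', hc, Finset.mem_filter, Finset.mem_range] at hr
    rcases hr with ⟨_, h⟩ | ⟨h1, h2⟩
    · exact h
    · have hne : Nonempty M := Fintype.card_pos_iff.1 (by omega)
      rw [hψ'] at h1
      refine ⟨hn, M, hM, hf, hc, ?_⟩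
      rw [hN n (by omega)]
      exact h1

end Pool.Agent.Helper14.SS
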